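import Pool.Agent.P.MP_95c9ea_lc.All

set_option autoImplicit false

namespace Pool.Agent.Results.MP_95c9ea_lc.AllCardinals

universe u

/-- For every infinite cardinal `κ` there is a 2-colouring of `κ⁺ × κ⁺ × κ⁺` that is not constant
on any product of three sets of size at least `κ`. -/
theorem result (κ : Cardinal.{u}) (hκ : Cardinal.aleph0 ≤ κ) (α : Type u)
    (hα : Cardinal.mk α = Order.succ κ) :
    ∃ c : α × α × α → Fin 2, ∀ H I J : Set α,
      κ ≤ Cardinal.mk H → κ ≤ Cardinal.mk I → κ ≤ Cardinal.mk J →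
      ¬ ∃ i : Fin 2, ∀ a ∈ H, ∀ b ∈ I, ∀ d ∈ J, c (a, b, d) = i := by
  classical
  obtain ⟨r, wo, hr⟩ := Cardinal.exists_ord_eq α
  let _ : LinearOrder α := linearOrderOfSTO r
  have _ : WellFoundedLT α := ⟨wo.wf⟩
  obtain ⟨c, hc⟩ := Pool.Agent.P.MP_95c9ea_lc.exists_colouring_all (α := α) κ hκ fun a => by
    rw [← Order.lt_succ_iff, ← hα]
    exact Cardinal.card_typein_lt (r := r) a hr
  exact ⟨fun p => c p.1 p.2.1 p.2.2, hc⟩

end Pool.Agent.Results.MP_95c9ea_lc.AllCardinals
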